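import Pool.Agent.Helper47.BL.Defs

set_option autoImplicit false

namespace Pool.Agent.Helper47.BL

open Finset Pool.Agent.Helper44.BB

/-- for given `n`, `d` the prime `q` is determined modulo `d ^ 2` -/
theorem cong_sq (n d q₁ q₂ : ℕ) (h1 : q₁.Prime) (h2 : q₂.Prime) (c1 : Cyc (q₁ * n) (D (q₁ * n)))
    (c2 : Cyc (q₂ * n) (D (q₂ * n))) (d1 : d ∣ D (q₁ * n)) (d2 : d ∣ D (q₂ * n)) :
    ((d : ℤ) ^ 2) ∣ ((q₁ : ℤ) - q₂) := by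
  -- squarefree: `q` does not divide `n`
  have nd : ∀ q : ℕ, q.Prime → Squarefree (q * n) → ¬ q ∣ n := by
    intro q hq hs hd
    obtain ⟨l, rfl⟩ := hd
    exact hq.one_lt.ne' (Nat.isUnit_iff.1 (hs q ⟨l, by ring⟩))
  have hn : Squarefree n := c1.sa.squarefree_of_dvd (Dvd.intro_left _ rfl)
  have f : ∀ q : ℕ, q.Prime → Cyc (q * n) (D (q * n)) → d ∣ D (q * n) →
      ∃ m : ℕ, q * D n + n = d * m ∧ d * D m + m * D d = q * n ∧ Squarefree d := by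
    intro q hq hc hd
    obtain ⟨m, hm⟩ := hd
    have e := D_prime_mul hq (nd q hq hc.sa)
    have hs : Squarefree (d * m) := by
      rw [← hm]
      exact hc.sb
    have hco : d.Coprime m := Nat.coprime_of_squarefree_mul hs
    refine ⟨m, by rw [← hm, e], ?_, hs.squarefree_of_dvd (Dvd.intro _ rfl)⟩
    have h := hc.ba
    rw [hm, D_mul hco] at h
    exact h
  obtain ⟨m₁, a1, b1, hsd⟩ := f q₁ h1 c1 d1
  obtain ⟨m₂, a2, b2, _⟩ := f q₂ h2 c2 d2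
  -- `d` is prime to `D n`
  have hco : d.Coprime (D n) := by
    refine Nat.Coprime.symm (Nat.coprime_of_dvd fun l hl hl1 hl2 => ?_)
    have h3 : l ∣ q₁ * D n + n := by
      rw [a1]
      exact hl2.mul_right _
    have h4 : l ∣ n := (Nat.dvd_add_right (hl1.mul_left q₁)).1 h3
    have h5 : l ∣ 1 := by
      rw [← Nat.Coprime.gcd_eq_one (D_coprime hn)]
      exact Nat.dvd_gcd h4 hl1
    exact hl.one_lt.ne' (Nat.dvd_one.1 h5)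
  have hco2 : d.Coprime (D d) := D_coprime hsd
  have A1 : (q₁ : ℤ) * D n + n = d * m₁ := by exact_mod_cast a1
  have A2 : (q₂ : ℤ) * D n + n = d * m₂ := by exact_mod_cast a2
  have B1 : (d : ℤ) * D m₁ + m₁ * D d = q₁ * n := by exact_mod_cast b1
  have B2 : (d : ℤ) * D m₂ + m₂ * D d = q₂ * n := by exact_mod_cast b2
  have hcoZ : IsCoprime (d : ℤ) (D n : ℤ) := Nat.isCoprime_iff_coprime.2 hco
  have hcoZ2 : IsCoprime (d : ℤ) (D d : ℤ) := Nat.isCoprime_iff_coprime.2 hco2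
  have k1 : (d : ℤ) ∣ (q₁ - q₂) := by
    refine hcoZ.dvd_of_dvd_mul_right ⟨m₁ - m₂, ?_⟩
    linear_combination A1 - A2
  obtain ⟨k, hk⟩ := k1
  by_cases hd0 : (d : ℤ) = 0
  · rw [hd0] at hk
    simp only [zero_mul] at hk
    rw [hk]
    exact dvd_zero _
  have k2 : (m₁ : ℤ) - m₂ = k * D n := by
    refine mul_left_cancel₀ hd0 ?_
    linear_combination A2 - A1 + (D n : ℤ) * hk
  have k3 : (d : ℤ) ∣ k * (D n * D d) := by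
    refine ⟨k * n - (D m₁ - D m₂), ?_⟩
    have : ((m₁ : ℤ) - m₂) * D d = (q₁ - q₂) * n - d * (D m₁ - D m₂) := by
      linear_combination B1 - B2
    rw [k2, hk] at this
    linear_combination this
  have k4 : (d : ℤ) ∣ k := (IsCoprime.mul_right hcoZ hcoZ2).dvd_of_dvd_mul_right k3
  obtain ⟨l, hl⟩ := k4
  exact ⟨l, by rw [hk, hl]; ring⟩

/-- numbers up to `Q` in one residue class modulo `M` -/
theorem card_class (Q : ℝ) (M : ℕ) (hM : 0 < M) (hQ : 0 ≤ Q) (S : Finset ℕ)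
    (hS : ∀ q ∈ S, (q : ℝ) ≤ Q) (hc : ∀ q₁ ∈ S, ∀ q₂ ∈ S, (M : ℤ) ∣ (q₁ : ℤ) - q₂) :
    (S.card : ℝ) ≤ Q / M + 1 := by
  have hM' : (0 : ℝ) < M := Nat.cast_pos.2 hM
  have hinj : Set.InjOn (fun q => q / M) (S : Set ℕ) := by
    intro q₁ h1 q₂ h2 h
    have h3 : q₁ % M = q₂ % M := by
      have := hc q₁ (mem_coe.1 h1) q₂ (mem_coe.1 h2)
      have h4 : (q₂ : ℤ) ≡ q₁ [ZMOD M] := (Int.modEq_iff_dvd).2 this
      exact ((Int.natCast_modEq_iff).1 h4).symm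
    have h : q₁ / M = q₂ / M := h
    rw [← Nat.div_add_mod q₁ M, ← Nat.div_add_mod q₂ M, h, h3]
  have h1 : S.card ≤ (range (⌊Q / M⌋₊ + 1)).card := by
    refine card_le_card_of_injOn (fun q => q / M) ?_ hinj
    intro q hq
    rw [mem_coe, mem_range, Nat.lt_succ_iff]
    refine Nat.le_floor ?_
    rw [le_div_iff₀ hM']
    calc ((q / M : ℕ) : ℝ) * M = ((q / M * M : ℕ) : ℝ) := by push_cast; ring
      _ ≤ q := Nat.cast_le.2 (Nat.div_mul_le_self q M)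
      _ ≤ Q := hS q (mem_coe.1 hq)
  rw [card_range] at h1
  calc (S.card : ℝ) ≤ ((⌊Q / M⌋₊ + 1 : ℕ) : ℝ) := Nat.cast_le.2 h1
    _ = (⌊Q / M⌋₊ : ℝ) + 1 := by push_cast; ring
    _ ≤ Q / M + 1 := by
      have := Nat.floor_le (div_nonneg hQ hM'.le)
      linarith

theorem sum_window (Q D₁ D₂ : ℝ) (hQ : 0 ≤ Q) (h1 : 1 ≤ D₁) (h2 : 0 ≤ D₂) :
    ∑ d ∈ Icc ⌈D₁⌉₊ ⌊D₂⌋₊, (Q / ((d ^ 2 : ℕ) : ℝ) + 1) ≤ 2 * Q / D₁ + D₂ := by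
  obtain ⟨m, hm⟩ : ∃ m : ℕ, ⌈D₁⌉₊ = m + 1 := by
    have : 0 < ⌈D₁⌉₊ := Nat.ceil_pos.2 (by linarith)
    exact ⟨⌈D₁⌉₊ - 1, by omega⟩
  have e : Icc (m + 1) ⌊D₂⌋₊ = Ioo m (⌊D₂⌋₊ + 1) := by
    ext d
    simp only [mem_Icc, mem_Ioo]
    omega
  rw [hm, e, sum_add_distrib]
  have a1 : ∑ d ∈ Ioo m (⌊D₂⌋₊ + 1), Q / ((d ^ 2 : ℕ) : ℝ) ≤ 2 * Q / D₁ := by
    have h3 := sum_Ioo_inv_sq_le (α := ℝ) m (⌊D₂⌋₊ + 1)
    have h4 : ∑ d ∈ Ioo m (⌊D₂⌋₊ + 1), Q / ((d ^ 2 : ℕ) : ℝ) =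
        Q * ∑ d ∈ Ioo m (⌊D₂⌋₊ + 1), ((d : ℝ) ^ 2)⁻¹ := by
      rw [mul_sum]
      refine sum_congr rfl fun d _ => ?_
      push_cast
      rw [div_eq_mul_inv]
    rw [h4]
    have h5 : D₁ ≤ (m : ℝ) + 1 := by
      have := Nat.le_ceil D₁
      rw [hm] at this
      push_cast at this
      exact this
    calc Q * ∑ d ∈ Ioo m (⌊D₂⌋₊ + 1), ((d : ℝ) ^ 2)⁻¹ ≤ Q * (2 / ((m : ℝ) + 1)) :=
          mul_le_mul_of_nonneg_left h3 hQ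
      _ ≤ Q * (2 / D₁) := by
          refine mul_le_mul_of_nonneg_left ?_ hQ
          exact div_le_div_of_nonneg_left (by norm_num) (by linarith) h5
      _ = 2 * Q / D₁ := by ring
  have a2 : ∑ d ∈ Ioo m (⌊D₂⌋₊ + 1), (1 : ℝ) ≤ D₂ := by
    rw [sum_const, nsmul_eq_mul, mul_one, Nat.card_Ioo]
    calc ((⌊D₂⌋₊ + 1 - m - 1 : ℕ) : ℝ) ≤ (⌊D₂⌋₊ : ℝ) := Nat.cast_le.2 (by omega)
      _ ≤ D₂ := Nat.floor_le h2
  exact add_le_add a1 a2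

theorem CN : ST_CN := by
  classical
  intro Q₂ D₁ D₂ K N hQ hD1 hD2 hK
  choose! hC q n d hq hb hn hqQ hdd hd1 hd2 using hK
  have hmap : ∀ b ∈ K, (n b, d b) ∈ N ×ˢ Icc ⌈D₁⌉₊ ⌊D₂⌋₊ := fun b hbK =>
    mem_product.2 ⟨hn b hbK, mem_Icc.2 ⟨Nat.ceil_le.2 (hd1 b hbK), Nat.le_floor (hd2 b hbK)⟩⟩
  rw [card_eq_sum_card_fiberwise (f := fun b => (n b, d b)) (t := N ×ˢ Icc ⌈D₁⌉₊ ⌊D₂⌋₊)
    (fun b hbK => mem_coe.2 (hmap b (mem_coe.1 hbK)))]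
  push_cast
  rw [sum_product]
  have key : ∀ n₀ ∈ N, ∀ d₀ ∈ Icc ⌈D₁⌉₊ ⌊D₂⌋₊,
      ((K.filter fun b => (n b, d b) = (n₀, d₀)).card : ℝ) ≤ Q₂ / ((d₀ ^ 2 : ℕ) : ℝ) + 1 := by
    intro n₀ _ d₀ hd₀
    have hd₀0 : 0 < d₀ := by
      have h1 := (mem_Icc.1 hd₀).1
      have h2 : 0 < ⌈D₁⌉₊ := Nat.ceil_pos.2 (by linarith)
      omega
    have hmem : ∀ b ∈ K.filter fun b => (n b, d b) = (n₀, d₀), b ∈ K ∧ n b = n₀ ∧ d b = d₀ := by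
      intro b hbF
      obtain ⟨h1, h2⟩ := mem_filter.1 hbF
      rw [Prod.mk.injEq] at h2
      exact ⟨h1, h2.1, h2.2⟩
    have hinj : Set.InjOn q (K.filter fun b => (n b, d b) = (n₀, d₀) : Finset ℕ) := by
      intro b₁ h1 b₂ h2 h
      obtain ⟨k1, l1, _⟩ := hmem b₁ (mem_coe.1 h1)
      obtain ⟨k2, l2, _⟩ := hmem b₂ (mem_coe.1 h2)
      rw [hb b₁ k1, hb b₂ k2, l1, l2, h]
    rw [← card_image_of_injOn hinj]
    refine card_class Q₂ (d₀ ^ 2) (by positivity) hQ _ ?_ ?_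
    · intro r hr
      obtain ⟨b, hbF, rfl⟩ := mem_image.1 hr
      exact hqQ b (hmem b hbF).1
    · intro r₁ hr₁ r₂ hr₂
      obtain ⟨b₁, hb₁, rfl⟩ := mem_image.1 hr₁
      obtain ⟨b₂, hb₂, rfl⟩ := mem_image.1 hr₂
      obtain ⟨k1, l1, m1⟩ := hmem b₁ hb₁
      obtain ⟨k2, l2, m2⟩ := hmem b₂ hb₂
      have e1 : b₁ = q b₁ * n₀ := by rw [← l1]; exact hb b₁ k1
      have e2 : b₂ = q b₂ * n₀ := by rw [← l2]; exact hb b₂ k2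
      have c1 := hC b₁ k1
      have c2 := hC b₂ k2
      have g1 := hdd b₁ k1
      have g2 := hdd b₂ k2
      rw [m1] at g1
      rw [m2] at g2
      have := cong_sq n₀ d₀ (q b₁) (q b₂) (hq b₁ k1) (hq b₂ k2) (by rw [← e1]; exact c1)
        (by rw [← e2]; exact c2) (by rw [← e1]; exact g1) (by rw [← e2]; exact g2)
      push_cast
      exact this
  calc ∑ n₀ ∈ N, ∑ d₀ ∈ Icc ⌈D₁⌉₊ ⌊D₂⌋₊,
        ((K.filter fun b => (n b, d b) = (n₀, d₀)).card : ℝ) ≤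
      ∑ n₀ ∈ N, ∑ d₀ ∈ Icc ⌈D₁⌉₊ ⌊D₂⌋₊, (Q₂ / ((d₀ ^ 2 : ℕ) : ℝ) + 1) :=
        sum_le_sum fun n₀ h1 => sum_le_sum fun d₀ h2 => key n₀ h1 d₀ h2
    _ = N.card * ∑ d₀ ∈ Icc ⌈D₁⌉₊ ⌊D₂⌋₊, (Q₂ / ((d₀ ^ 2 : ℕ) : ℝ) + 1) := by
        rw [sum_const, nsmul_eq_mul]
    _ ≤ N.card * (2 * Q₂ / D₁ + D₂) :=
        mul_le_mul_of_nonneg_left (sum_window Q₂ D₁ D₂ hQ hD1 hD2) (Nat.cast_nonneg _)

end Pool.Agent.Helper47.BL
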