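import Pool.Agent.Helper44.BB.Stmts

set_option autoImplicit false

/-!
# Barbeau pairs: the counting function is at most `x exp(-c sqrt(log x log log x))`, `c < 1/sqrt 2`

Statements of the rows (table `bl_rows`).  `Cyc a b`: `a`, `b` squarefree, `D a = b`, `D b = a`,
`D` the arithmetic derivative, `dl n` the sum of the reciprocals of the primes of `n`, `sp t n` the
`t`-smooth part (all in `Helper44/BB/Basic.lean`).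
-/

namespace Pool.Agent.Helper47.BL

open Finset Pool.Agent.Helper44.BB

/-- the scale `y = exp(c sqrt(log x log log x))` -/
noncomputable def yy (c x : ℝ) : ℝ := Real.exp (c * √(Real.log x * Real.log (Real.log x)))

/-- the smooth saving: `1 / v` for `v = (i+1)/100` if `i ≤ 400`, nothing for larger `i` -/
noncomputable def ee (i : ℕ) : ℝ := if i ≤ 400 then 100 / ((i : ℝ) + 1) else 0

/-- the exponent of the window -/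
noncomputable def tt (i : ℕ) : ℝ := 1 - ee i + 1 / 50

/-- (CN) the counting lemma: `b = q n`, `d` divides `a = D b`; for given `n`, `d` the primes `q`
lie in one residue class modulo `d ^ 2`.
Proof: `D b = q D n + n = d m`, `D (D b) = d D m + m D d = q n`. For two primes `q₁`, `q₂` with the
same `n`, `d`: `d ∣ (q₁ - q₂) D n` and `(d, D n) = 1` (a common prime divides `n`, but
`(n, D n) = 1`), so `q₁ - q₂ = d k`, `m₁ - m₂ = k D n`, and `d ∣ (q₁ - q₂) n - (m₁ - m₂) D d`, so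
`d ∣ k D n D d`, `d ∣ k`. Hence at most `Q₂ / d ^ 2 + 1` primes `q ≤ Q₂` for each `(n, d)`;
`∑_{d ≥ D₁} 1 / d ^ 2 ≤ 2 / D₁`. -/
def ST_CN : Prop := ∀ (Q₂ D₁ D₂ : ℝ) (K N : Finset ℕ), 0 ≤ Q₂ → 1 ≤ D₁ → 0 ≤ D₂ →
  (∀ b ∈ K, Cyc b (D b) ∧ ∃ q n d : ℕ, q.Prime ∧ b = q * n ∧ n ∈ N ∧ (q : ℝ) ≤ Q₂ ∧
    d ∣ D b ∧ D₁ ≤ d ∧ (d : ℝ) ≤ D₂) →
  (K.card : ℝ) ≤ N.card * (2 * Q₂ / D₁ + D₂)

/-- (SK) numbers with at least `k` prime factors, all at most `Y` (Rankin): `s = ∑_{p ≤ Y} 1/p`.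
Proof: `1 ≤ lam ^ (ω(a) - k)`, `lam ^ ω(a) = ∑_{T ⊆ primes of a} (lam - 1) ^ |T|`, so the number of
`a` is at most `lam ^ (-k) ∑_T (lam - 1) ^ |T| Z / ∏ T ≤ lam ^ (-k) Z ∏_{p ≤ Y} (1 + (lam - 1)/p)`. -/
def ST_SK : Prop := ∀ (Z Y lam : ℝ) (k : ℕ) (A : Finset ℕ), 0 ≤ Z → 1 ≤ lam →
  (∀ a ∈ A, Squarefree a ∧ (a : ℝ) ≤ Z ∧ k ≤ a.primeFactors.card ∧
    ∀ p : ℕ, p.Prime → p ∣ a → (p : ℝ) ≤ Y) →
  (A.card : ℝ) ≤ Z * (Real.exp (lam * ∑ p ∈ pr Y, 1 / (p : ℝ)) / lam ^ k)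

/-- (SM) smooth numbers (from SK, MER): `A` a set of `y^v`-smooth squarefree numbers up to `Z`.
Proof: those `≤ Z ^ (1 - e)`: trivial. The others have at least `k = ⌊(1 - e) log Z / log Y⌋` prime
factors; SK with `lam = k / s'`, `s' = C (1 + log log x) + 1`:
`Z exp(-k (log k - log s' - 1))`; with `L = log x`, `l = log L`, `R = √(L / l)`:
`k ≥ (1 - e) ^ 3 R / (v c)`, `log k - log s' - 1 ≥ (1 - e) l / 2`, so the exponent is at least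
`(1 - e) ^ 4 R l / (2 v c) ≥ (c R l) / v` as soon as `(1 - e) ^ 4 > 2 c ^ 2`, and
`√(L l) = R l`. -/
def ST_SM : Prop := ∀ c : ℝ, 0 < c → 2 * c ^ 2 < 1 → ∃ x₀ : ℝ, ∀ (x v Z : ℝ) (A : Finset ℕ),
  x₀ ≤ x → 1 ≤ v → v ≤ 5 → x ≤ Z * yy c x ^ (5 : ℕ) →
  (∀ a ∈ A, Squarefree a ∧ (a : ℝ) ≤ Z ∧ ∀ p : ℕ, p.Prime → p ∣ a → (p : ℝ) ≤ yy c x ^ v) →
  (A.card : ℝ) ≤ Z * yy c x ^ (-(1 / v))

/-- (NI) numerical: the window inequality. `x = i / 100`, `z = j / 100` -/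
def ST_NI : Prop := ∀ i j : ℕ, 100 ≤ i → 100 ≤ j →
  (i : ℝ) / 100 - tt i < ((j : ℝ) + 1) / 100 → (j : ℝ) / 100 - tt j < ((i : ℝ) + 1) / 100 →
  tt i + tt j + 1 / 100 < (i : ℝ) / 100 - tt i

/-- (STR) one of the two members has a divisor in its window (from BND, ERR, DIV, NI).
Proof: if not, `sp (y ^ (i/100 - tt i)) a < y ^ tt i` (DIV with `Q = y ^ (i/100 - tt i)`,
`W = y ^ tt i`), so `p > y ^ (i/100 - tt i)`; the same for `b`. With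
`t = min (y ^ (i/100 - tt i)) (y ^ (j/100 - tt j))`, ERR gives
`t ≤ 8 log x ^ 2 * sp t a * sp t b < y ^ (1/100 + tt i + tt j)`, against NI. -/
def ST_STR : Prop := ∀ (a b p q i j : ℕ) (x y : ℝ), Cyc a b → (a : ℝ) ≤ x → 1 ≤ Real.log x →
  1 < y → 8 * Real.log x ^ 2 ≤ y ^ (1 / 100 : ℝ) → y ^ (2 : ℕ) < a → y ^ (2 : ℕ) < b →
  p.Prime → p ∣ a → (∀ r : ℕ, r.Prime → r ∣ a → r ≤ p) →
  q.Prime → q ∣ b → (∀ r : ℕ, r.Prime → r ∣ b → r ≤ q) → 100 ≤ i → 100 ≤ j →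
  (q : ℝ) < y ^ (((i : ℝ) + 1) / 100) → (p : ℝ) < y ^ (((j : ℝ) + 1) / 100) →
  (∃ d : ℕ, d ∣ a ∧ y ^ tt i ≤ d ∧ (d : ℝ) ≤ y ^ ((i : ℝ) / 100 - tt i)) ∨
  (∃ d : ℕ, d ∣ b ∧ y ^ tt j ≤ d ∧ (d : ℝ) ≤ y ^ ((j : ℝ) / 100 - tt j))

/-- (NU) numerical inequalities for large `x`; `y = yy c' x`, `L = log x` -/
def ST_NU : Prop := ∀ c c' : ℝ, 0 < c → c < c' → ∃ x₀ : ℝ, ∀ x : ℝ, x₀ ≤ x →
  2 ≤ Real.log x ∧ 1 < yy c' x ∧ 8 * Real.log x ^ 2 ≤ yy c' x ^ (1 / 100 : ℝ) ∧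
  yy c' x ^ (2 : ℕ) ≤ √x ∧
  2 * √x + x * (2000 * Real.log x ^ 3) / yy c' x ≤ x / yy c x

/-- (CLS) the solutions with a divisor in one window (from CN, SM): the set of the `b`'s -/
def ST_CLS : Prop := ∀ c : ℝ, 0 < c → 2 * c ^ 2 < 1 → ∃ x₀ : ℝ, ∀ (x X : ℝ) (i : ℕ)
  (K : Finset ℕ), x₀ ≤ x → x ≤ X → 100 ≤ i →
  (∀ b ∈ K, Cyc b (D b) ∧ (b : ℝ) ≤ X ∧ ∃ q d : ℕ, q.Prime ∧ q ∣ b ∧
    (∀ r : ℕ, r.Prime → r ∣ b → r ≤ q) ∧ yy c x ^ ((i : ℝ) / 100) ≤ q ∧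
    (q : ℝ) < yy c x ^ (((i : ℝ) + 1) / 100) ∧ d ∣ D b ∧ yy c x ^ tt i ≤ d ∧
    (d : ℝ) ≤ yy c x ^ ((i : ℝ) / 100 - tt i)) →
  (K.card : ℝ) ≤ 3 * X / yy c x

/-- (MAIN2) the counting function (from BND, CLS, SM, STR, NU) -/
def ST_MAIN2 : Prop := ∀ c : ℝ, 0 < c → 2 * c ^ 2 < 1 → ∃ x₀ : ℝ, ∀ (x : ℝ) (A : Finset ℕ),
  x₀ ≤ x → (∀ a ∈ A, (a : ℝ) ≤ x ∧ Cyc a (D a)) → (A.card : ℝ) ≤ x / yy c x

end Pool.Agent.Helper47.BL
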