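import Pool.Agent.Helper50.BL.Stmts
import Pool.Agent.Helper50.BL.Base

/-! Module LV1 of the BL crew (MP_e8ee11_co): one level of the chain. -/

namespace Pool.Agent.Helper50.BL

open Finset
open scoped Classical

/-- rounding error -/
theorem lv1_round {h : ℝ} (hh : 0 < h) (w : ℝ) : |h * (round (w / h) : ℝ) - w| ≤ h / 2 := by
  have h1 : |w / h - (round (w / h) : ℝ)| ≤ 1 / 2 := abs_sub_round (w / h)
  have h2 : h * (round (w / h) : ℝ) - w = -(h * (w / h - (round (w / h) : ℝ))) := by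
    field_simp
    ring
  rw [h2, abs_neg, abs_mul, abs_of_pos hh]
  nlinarith [h1, hh, abs_nonneg (w / h - (round (w / h) : ℝ))]

/-- the pointwise bound when both values are close to `w` -/
theorem lv1_close (hGB : ST_GB) {y : ℝ} (a : SignType) (hy : |y| ≤ 1 / 4) {h v v' w : ℝ}
    (h1 : |v - w| ≤ 3 / 4 * h) (h2 : |v' - w| ≤ 3 / 4 * (2 * h)) :
    gg y a v - gg y a v' + (|v| - |v'|) / 8 ≤ 99 / 32 * h := by
  have h3 : |v - v'| ≤ 9 / 4 * h := by
    have h4 : v - v' = (v - w) - (v' - w) := by ring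
    have h5 := abs_sub (v - w) (v' - w)
    rw [h4]
    linarith
  have h6 := hGB.2.2.2.1 y v v' a hy
  have h7 := le_abs_self (gg y a v - gg y a v')
  have h8 : |v| - |v'| ≤ |v - v'| := abs_sub_abs_le_abs_sub v v'
  linarith

/-- lower bound of the increment -/
theorem lv1_inc (hGB : ST_GB) {y : ℝ} (a : SignType) (hy : |y| ≤ 1 / 4) {u u' : ℤ}
    (h1 : |u - 2 * u'| ≤ 3) : -(33 / 8) ≤ inc y a u u' := by
  have h2 : |(u : ℝ) - 2 * (u' : ℝ)| ≤ 3 := by
    have : ((|u - 2 * u'| : ℤ) : ℝ) ≤ ((3 : ℤ) : ℝ) := by exact_mod_cast h1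
    simpa [Int.cast_abs] using this
  have h3 := hGB.2.2.2.1 y (u : ℝ) (2 * (u' : ℝ)) a hy
  have h4 := neg_abs_le (gg y a (u : ℝ) - gg y a (2 * (u' : ℝ)))
  have h5 : |2 * (u' : ℝ)| - |(u : ℝ)| ≤ |(u : ℝ) - 2 * (u' : ℝ)| := by
    rw [abs_sub_comm]
    exact abs_sub_abs_le_abs_sub _ _
  have h6 : |2 * (u' : ℝ)| = 2 * |(u' : ℝ)| := by
    rw [abs_mul, abs_of_pos (by norm_num : (0 : ℝ) < 2)]
  unfold inc
  linarith

/-- the exact value on `Dst` -/
theorem lv1_eq (hGB : ST_GB) (y : ℝ) (a : SignType) {h : ℝ} (hh : 0 < h) (u u' : ℤ) :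
    gg y a (h * (u : ℝ)) - gg y a (2 * h * (u' : ℝ))
      + (|h * (u : ℝ)| - |2 * h * (u' : ℝ)|) / 8 = h * inc y a u u' := by
  have h1 := hGB.2.2.2.2 y (u : ℝ) h a hh.le
  have h2 := hGB.2.2.2.2 y (2 * (u' : ℝ)) h a hh.le
  have h3 : 2 * h * (u' : ℝ) = h * (2 * (u' : ℝ)) := by ring
  rw [h3, h1, h2, abs_mul, abs_mul, abs_mul, abs_of_pos hh,
    abs_of_pos (by norm_num : (0 : ℝ) < 2)]
  unfold inc
  ring

/-- both approximations differ by less than `3` -/
theorem lv1_diff {h w : ℝ} (hh : 0 < h) {u u' : ℤ} (h1 : |h * (u : ℝ) - w| ≤ 3 / 4 * h)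
    (h2 : |2 * h * (u' : ℝ) - w| ≤ 3 / 4 * (2 * h)) : |u - 2 * u'| ≤ 3 := by
  have h3 : |h * ((u : ℝ) - 2 * (u' : ℝ))| ≤ 9 / 4 * h := by
    have h4 : h * ((u : ℝ) - 2 * (u' : ℝ)) = (h * (u : ℝ) - w) - (2 * h * (u' : ℝ) - w) := by ring
    have h5 := abs_sub (h * (u : ℝ) - w) (2 * h * (u' : ℝ) - w)
    rw [h4]
    linarith
  rw [abs_mul, abs_of_pos hh] at h3
  have h6 : |(u : ℝ) - 2 * (u' : ℝ)| ≤ 9 / 4 := by
    by_contra hc
    push Not at hc
    have := mul_lt_mul_of_pos_left hc hh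
    linarith
  have h7 : ((|u - 2 * u'| : ℤ) : ℝ) ≤ ((3 : ℤ) : ℝ) := by
    rw [Int.cast_abs]
    push_cast
    linarith
  exact_mod_cast h7

theorem st_LV1 (hGB : ST_GB) : ST_LV1 := by
  intro V _ _ y ξ w h u u' b b' hy hh hb hb'
  have hr : ∀ x, |(if x ∈ b then h * (round (w x / h) : ℝ) else h * (u x : ℝ)) - w x|
      ≤ 3 / 4 * h := by
    intro x
    split_ifs with hx
    · exact (lv1_round hh (w x)).trans (by linarith)
    · exact (hb x hx).1
  have hr' : ∀ x, |(if x ∈ b' then 2 * h * (round (w x / (2 * h)) : ℝ)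
      else 2 * h * (u' x : ℝ)) - w x| ≤ 3 / 4 * (2 * h) := by
    intro x
    split_ifs with hx
    · exact (lv1_round (by linarith : 0 < 2 * h) (w x)).trans (by linarith)
    · exact (hb' x hx).1
  have hpt : ∀ x, gg (y x) (ξ x) (if x ∈ b then h * (round (w x / h) : ℝ) else h * (u x : ℝ))
      - gg (y x) (ξ x) (if x ∈ b' then 2 * h * (round (w x / (2 * h)) : ℝ)
          else 2 * h * (u' x : ℝ))
      + (|if x ∈ b then h * (round (w x / h) : ℝ) else h * (u x : ℝ)|
        - |if x ∈ b' then 2 * h * (round (w x / (2 * h)) : ℝ) else 2 * h * (u' x : ℝ)|) / 8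
      ≤ h * (if x ∈ Dst u u' then inc (y x) (ξ x) (u x) (u' x) else 0)
        + 8 * h * ((if x ∈ b then (1 : ℝ) else 0) + (if x ∈ b' then (1 : ℝ) else 0)) := by
    intro x
    by_cases hx : x ∈ b ∨ x ∈ b'
    · have h1 := lv1_close hGB (ξ x) (hy x) (hr x) (hr' x)
      have h2 : (1 : ℝ) ≤ (if x ∈ b then (1 : ℝ) else 0) + (if x ∈ b' then (1 : ℝ) else 0) := by
        rcases hx with hx | hx
        · rw [if_pos hx]
          split_ifs <;> norm_num
        · rw [if_pos hx]
          split_ifs <;> norm_num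
      have h3 : -(33 / 8) ≤ (if x ∈ Dst u u' then inc (y x) (ξ x) (u x) (u' x) else 0) := by
        split_ifs with hD
        · exact lv1_inc hGB (ξ x) (hy x) (mem_filter.1 hD).2.2
        · norm_num
      have h4 : -(33 / 8) * h ≤ h * (if x ∈ Dst u u' then inc (y x) (ξ x) (u x) (u' x) else 0) := by
        have := mul_le_mul_of_nonneg_left h3 hh.le
        linarith
      have h5 : 8 * h * 1 ≤ 8 * h *
          ((if x ∈ b then (1 : ℝ) else 0) + (if x ∈ b' then (1 : ℝ) else 0)) :=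
        mul_le_mul_of_nonneg_left h2 (by linarith)
      linarith
    · push Not at hx
      have h1 := hb x hx.1
      have h2 := hb' x hx.2
      rw [if_neg hx.1, if_neg hx.2, if_neg hx.1, if_neg hx.2, lv1_eq hGB _ _ hh]
      have h3 := lv1_diff hh h1.1 h2.1
      by_cases hD : x ∈ Dst u u'
      · rw [if_pos hD]
        linarith
      · rw [if_neg hD]
        have h4 : u x = 0 ∧ u' x = 0 := by
          by_contra hc
          apply hD
          rw [Dst, mem_filter]
          refine ⟨mem_univ _, ?_, h3⟩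
          by_contra hc2
          push Not at hc2
          exact hc hc2
        rw [h4.1, h4.2]
        unfold inc gg
        simp
  refine ⟨?_, ?_⟩
  · have h1 := Finset.sum_le_sum (s := (univ : Finset V)) fun x _ => hpt x
    rw [sum_add_distrib, sum_add_distrib, sum_sub_distrib, ← sum_div, sum_sub_distrib,
      ← mul_sum, ← mul_sum, sum_add_distrib, ← sum_filter] at h1
    have h2 : ∀ c : Finset V, ∑ x, (if x ∈ c then (1 : ℝ) else 0) = (#c : ℝ) := by
      intro c
      rw [← sum_filter, Finset.filter_mem_eq_inter, univ_inter]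
      simp
    have h3 : univ.filter (fun x => x ∈ Dst u u') = Dst u u' := by
      rw [Finset.filter_mem_eq_inter, univ_inter]
    rw [h2, h2, h3] at h1
    unfold Gs l1
    linarith
  · have hsub : Dst u u' ⊆ (univ.filter (fun x => h / 4 ≤ |w x|) ∪ b) ∪ b' := by
      intro x hx
      rw [mem_union, mem_union]
      by_cases hxb : x ∈ b
      · exact Or.inl (Or.inr hxb)
      by_cases hxb' : x ∈ b'
      · exact Or.inr hxb'
      refine Or.inl (Or.inl ?_)
      rw [mem_filter]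
      refine ⟨mem_univ _, ?_⟩
      by_contra hc
      push Not at hc
      have h1 := (hb x hxb).2 hc
      have h2 := (hb' x hxb').2 (by linarith)
      have h3 := (mem_filter.1 hx).2.1
      rcases h3 with h3 | h3
      · exact h3 h1
      · exact h3 h2
    have h1 : #(Dst u u') ≤ #(univ.filter (fun x => h / 4 ≤ |w x|)) + #b + #b' :=
      (card_le_card hsub).trans ((card_union_le _ _).trans
        (Nat.add_le_add_right (card_union_le _ _) _))
    exact_mod_cast h1

end Pool.Agent.Helper50.BL
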