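import Pool.Agent.Helper47.BL.Defs

set_option autoImplicit false

namespace Pool.Agent.Helper47.BL

open Finset Pool.Agent.Helper44.BB

theorem cyc_symm {a : ℕ} (h : Cyc a (D a)) : Cyc (D a) (D (D a)) := by
  rw [h.ba]
  exact ⟨h.sb, h.sa, h.ba, h.ab⟩

theorem card_le_sqrt (S : Finset ℕ) (B : ℝ) (hB : 0 ≤ B) (h : ∀ a ∈ S, 0 < a ∧ (a : ℝ) ≤ B) :
    (S.card : ℝ) ≤ B := by
  have h1 : S ⊆ Icc 1 ⌊B⌋₊ := fun a ha => mem_Icc.2 ⟨(h a ha).1, Nat.le_floor (h a ha).2⟩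
  have h2 := card_le_card h1
  rw [Nat.card_Icc, Nat.add_sub_cancel] at h2
  exact (Nat.cast_le.2 h2).trans (Nat.floor_le hB)

/-- the scale of a prime -/
theorem scale (y : ℝ) (hy : 1 < y) (q : ℕ) (hq : y < q) :
    100 ≤ ⌊100 * Real.log q / Real.log y⌋₊ ∧
    y ^ (((⌊100 * Real.log q / Real.log y⌋₊ : ℕ) : ℝ) / 100) ≤ q ∧
    (q : ℝ) < y ^ ((((⌊100 * Real.log q / Real.log y⌋₊ : ℕ) : ℝ) + 1) / 100) := by
  have hy0 : 0 < y := by linarith
  have hly : 0 < Real.log y := Real.log_pos hy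
  have hq0 : (0 : ℝ) < q := by linarith
  have hlq : Real.log y < Real.log q := Real.log_lt_log hy0 hq
  have h0 : 0 ≤ 100 * Real.log q / Real.log y := by positivity
  refine ⟨?_, ?_, ?_⟩
  · refine Nat.le_floor ?_
    rw [le_div_iff₀ hly]
    push_cast
    linarith
  · have h1 := Nat.floor_le h0
    rw [le_div_iff₀ hly] at h1
    rw [Real.rpow_def_of_pos hy0, ← Real.le_log_iff_exp_le hq0]
    linarith
  · have h1 := Nat.lt_floor_add_one (100 * Real.log q / Real.log y)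
    rw [div_lt_iff₀ hly] at h1
    rw [Real.rpow_def_of_pos hy0, ← Real.log_lt_iff_lt_exp hq0]
    linarith

/-- the largest prime factor -/
theorem max_prime (a : ℕ) (ha : a ≠ 0) (y : ℝ) (h : ¬ ∀ p : ℕ, p.Prime → p ∣ a → (p : ℝ) ≤ y) :
    ∃ p : ℕ, p.Prime ∧ p ∣ a ∧ (∀ r : ℕ, r.Prime → r ∣ a → r ≤ p) ∧ y < p := by
  push Not at h
  obtain ⟨r, hr, hra, hry⟩ := h
  have hne : a.primeFactors.Nonempty := ⟨r, Nat.mem_primeFactors.2 ⟨hr, hra, ha⟩⟩
  have hm := a.primeFactors.max'_mem hne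
  refine ⟨a.primeFactors.max' hne, Nat.prime_of_mem_primeFactors hm,
    Nat.dvd_of_mem_primeFactors hm, fun s hs hsa =>
      le_max' _ _ (Nat.mem_primeFactors.2 ⟨hs, hsa, ha⟩), hry.trans_le (Nat.cast_le.2
      (le_max' _ _ (Nat.mem_primeFactors.2 ⟨hr, hra, ha⟩)))⟩

theorem MAIN2 (hB : ST_BND) (hC : ST_CLS) (hS : ST_SM) (hT : ST_STR) (hN : ST_NU) : ST_MAIN2 := by
  classical
  intro c hc hc2
  obtain ⟨c', hc', hc'2⟩ : ∃ c' : ℝ, c < c' ∧ 2 * c' ^ 2 < 1 := by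
    refine ⟨c + (1 - 2 * c ^ 2) / 8, by linarith, ?_⟩
    have h1 : c < 1 := by nlinarith
    have h2 : c * (1 - 2 * c ^ 2) ≤ 1 * (1 - 2 * c ^ 2) :=
      mul_le_mul_of_nonneg_right h1.le (by linarith)
    nlinarith
  have hc'0 : 0 < c' := hc.trans hc'
  obtain ⟨x₁, hC⟩ := hC c' hc'0 hc'2
  obtain ⟨x₂, hS⟩ := hS c' hc'0 hc'2
  obtain ⟨x₃, hN⟩ := hN c c' hc hc'
  refine ⟨max (max x₁ x₂) (max x₃ 1), fun x A hx hA => ?_⟩
  have hx1 : x₁ ≤ x := (le_max_left _ _).trans ((le_max_left _ _).trans hx)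
  have hx2 : x₂ ≤ x := (le_max_right _ _).trans ((le_max_left _ _).trans hx)
  have hx3 : x₃ ≤ x := (le_max_left _ _).trans ((le_max_right _ _).trans hx)
  have hx4 : 1 ≤ x := (le_max_right _ _).trans ((le_max_right _ _).trans hx)
  have hx0 : 0 < x := by linarith
  obtain ⟨n1, n2, n3, n4, n5⟩ := hN x hx3
  obtain ⟨y, hyd⟩ : ∃ y : ℝ, y = yy c' x := ⟨_, rfl⟩
  obtain ⟨L, hL⟩ : ∃ L : ℝ, L = Real.log x := ⟨_, rfl⟩
  rw [← hyd] at n2 n3 n4 n5
  rw [← hL] at n1 n3 n5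
  have hy0 : 0 < y := by linarith
  obtain ⟨X, hX⟩ : ∃ X : ℝ, X = x * L := ⟨_, rfl⟩
  have hxX : x ≤ X := by rw [hX]; nlinarith
  have hX0 : 0 < X := hx0.trans_le hxX
  have hL1 : 1 ≤ Real.log x := by rw [← hL]; linarith
  have hy5 : (1 : ℝ) ≤ y ^ (5 : ℕ) := one_le_pow₀ n2.le
  -- the logarithm of `y` is at least one
  have hly : 1 ≤ Real.log y := by
    have h1 : (8 : ℝ) ≤ y ^ (1 / 100 : ℝ) := by nlinarith
    have h2 : Real.log 8 ≤ 1 / 100 * Real.log y := by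
      rw [← Real.log_rpow hy0]
      exact Real.log_le_log (by norm_num) h1
    have h3 : (1 : ℝ) / 100 ≤ Real.log 8 := by
      have : Real.log 2 ≤ Real.log 8 := Real.log_le_log (by norm_num) (by norm_num)
      linarith [Real.log_two_gt_d9]
    linarith
  have hXL : Real.log X ≤ 2 * L := by
    rw [hX, Real.log_mul hx0.ne' (by linarith), ← hL]
    have := Real.log_le_sub_one_of_pos (show 0 < L by linarith)
    linarith
  have hpos : ∀ a ∈ A, 0 < a := fun a ha => (hA a ha).2.sa.ne_zero.bot_lt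
  have hbX : ∀ a ∈ A, (D a : ℝ) ≤ X := by
    intro a ha
    rw [hX, hL]
    exact (hB a (D a) x (hA a ha).2 (hA a ha).1 hL1).2.2.2.2
  have hDinj : Set.InjOn D (A : Set ℕ) := by
    intro a ha b hb hab
    have h1 := (hA a (mem_coe.1 ha)).2.ba
    have h2 := (hA b (mem_coe.1 hb)).2.ba
    rw [← h1, ← h2, hab]
  have hDcard : ∀ P : ℕ → Prop, ((A.filter P).card : ℝ) = (((A.filter P).image D).card : ℝ) := by
    intro P
    rw [card_image_of_injOn (hDinj.mono (by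
      intro a ha
      exact mem_coe.2 (mem_filter.1 (mem_coe.1 ha)).1))]
  -- the pieces
  have e1 : ((A.filter fun a : ℕ => (a : ℝ) ≤ √x).card : ℝ) ≤ √x :=
    card_le_sqrt _ _ (Real.sqrt_nonneg x) fun a ha =>
      ⟨hpos a (mem_filter.1 ha).1, (mem_filter.1 ha).2⟩
  have e2 : ((A.filter fun a : ℕ => (D a : ℝ) ≤ √x).card : ℝ) ≤ √x := by
    rw [hDcard]
    refine card_le_sqrt _ _ (Real.sqrt_nonneg x) fun b hb => ?_
    obtain ⟨a, ha, rfl⟩ := mem_image.1 hb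
    exact ⟨(hA a (mem_filter.1 ha).1).2.sb.ne_zero.bot_lt, (mem_filter.1 ha).2⟩
  have ey : y ^ (-(1 / 1) : ℝ) = 1 / y := by
    rw [div_one, Real.rpow_neg_one, one_div]
  have e3 : ((A.filter fun a : ℕ => ∀ p : ℕ, p.Prime → p ∣ a → (p : ℝ) ≤ y).card : ℝ) ≤ x / y := by
    have h1 := hS x 1 x (A.filter fun a : ℕ => ∀ p : ℕ, p.Prime → p ∣ a → (p : ℝ) ≤ y) hx2 le_rfl
      (by norm_num) (by rw [← hyd]; nlinarith) (by
        intro a ha
        obtain ⟨h1, h2⟩ := mem_filter.1 ha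
        refine ⟨(hA a h1).2.sa, (hA a h1).1, ?_⟩
        rw [← hyd, Real.rpow_one]
        exact h2)
    rw [← hyd, ey, mul_one_div] at h1
    exact h1
  have e4 : ((A.filter fun a : ℕ => ∀ p : ℕ, p.Prime → p ∣ D a → (p : ℝ) ≤ y).card : ℝ) ≤ X / y := by
    rw [hDcard]
    have h1 := hS x 1 X ((A.filter fun a : ℕ => ∀ p : ℕ, p.Prime → p ∣ D a → (p : ℝ) ≤ y).image D)
      hx2 le_rfl (by norm_num) (by rw [← hyd]; nlinarith) (by
        intro b hb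
        obtain ⟨a, ha, rfl⟩ := mem_image.1 hb
        obtain ⟨h1, h2⟩ := mem_filter.1 ha
        refine ⟨(hA a h1).2.sb, hbX a h1, ?_⟩
        rw [← hyd, Real.rpow_one]
        exact h2)
    rw [← hyd, ey, mul_one_div] at h1
    exact h1
  obtain ⟨F, hF⟩ : ∃ F : ℕ → ℕ → Prop, F = fun (i a : ℕ) => 100 ≤ i ∧ ∃ q d : ℕ, q.Prime ∧ q ∣ D a ∧
    (∀ r : ℕ, r.Prime → r ∣ D a → r ≤ q) ∧ y ^ ((i : ℝ) / 100) ≤ q ∧
    (q : ℝ) < y ^ (((i : ℝ) + 1) / 100) ∧ d ∣ a ∧ y ^ tt i ≤ d ∧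
    (d : ℝ) ≤ y ^ ((i : ℝ) / 100 - tt i) := ⟨_, rfl⟩
  obtain ⟨G, hG⟩ : ∃ G : ℕ → ℕ → Prop, G = fun (i a : ℕ) => 100 ≤ i ∧ ∃ q d : ℕ, q.Prime ∧ q ∣ a ∧
    (∀ r : ℕ, r.Prime → r ∣ a → r ≤ q) ∧ y ^ ((i : ℝ) / 100) ≤ q ∧
    (q : ℝ) < y ^ (((i : ℝ) + 1) / 100) ∧ d ∣ D a ∧ y ^ tt i ≤ d ∧
    (d : ℝ) ≤ y ^ ((i : ℝ) / 100 - tt i) := ⟨_, rfl⟩
  have hXy : 0 ≤ 3 * X / y := by positivity
  have e5 : ∀ i : ℕ, ((A.filter (F i)).card : ℝ) ≤ 3 * X / y := by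
    intro i
    by_cases hi : 100 ≤ i
    · rw [hDcard]
      have h1 := hC x X i ((A.filter (F i)).image D) hx1 hxX hi (by
        intro b hb
        obtain ⟨a, ha, rfl⟩ := mem_image.1 hb
        obtain ⟨h1, h2⟩ := mem_filter.1 ha
        rw [hF] at h2
        obtain ⟨_, q, d, g1, g2, g3, g4, g5, g6, g7, g8⟩ := h2
        refine ⟨cyc_symm (hA a h1).2, hbX a h1, q, d, g1, g2, g3, by rw [← hyd]; exact g4,
          by rw [← hyd]; exact g5, by rw [(hA a h1).2.ba]; exact g6, by rw [← hyd]; exact g7,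
          by rw [← hyd]; exact g8⟩)
      rw [← hyd] at h1
      exact h1
    · have : A.filter (F i) = ∅ := by
        refine filter_eq_empty_iff.2 fun a _ h => ?_
        rw [hF] at h
        exact hi h.1
      rw [this, card_empty]
      simpa using hXy
  have e6 : ∀ i : ℕ, ((A.filter (G i)).card : ℝ) ≤ 3 * X / y := by
    intro i
    by_cases hi : 100 ≤ i
    · have h1 := hC x X i (A.filter (G i)) hx1 hxX hi (by
        intro a ha
        obtain ⟨h1, h2⟩ := mem_filter.1 ha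
        rw [hG] at h2
        obtain ⟨_, q, d, g1, g2, g3, g4, g5, g6, g7, g8⟩ := h2
        refine ⟨(hA a h1).2, (hA a h1).1.trans hxX, q, d, g1, g2, g3, by rw [← hyd]; exact g4,
          by rw [← hyd]; exact g5, g6, by rw [← hyd]; exact g7, by rw [← hyd]; exact g8⟩)
      rw [← hyd] at h1
      exact h1
    · have : A.filter (G i) = ∅ := by
        refine filter_eq_empty_iff.2 fun a _ h => ?_
        rw [hG] at h
        exact hi h.1
      rw [this, card_empty]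
      simpa using hXy
  obtain ⟨R, hR⟩ : ∃ R : Finset ℕ, R = range (⌊200 * L⌋₊ + 1) := ⟨_, rfl⟩
  have hRc : (R.card : ℝ) ≤ 200 * L + 1 := by
    rw [hR, card_range]
    push_cast
    have := Nat.floor_le (show 0 ≤ 200 * L by linarith)
    linarith
  have hRi : ∀ q : ℕ, 0 < q → (q : ℝ) ≤ X → ⌊100 * Real.log q / Real.log y⌋₊ ∈ R := by
    intro q hq0 hqX
    rw [hR, mem_range, Nat.lt_succ_iff]
    refine Nat.floor_le_floor ?_
    have hq0' : (0 : ℝ) < q := Nat.cast_pos.2 hq0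
    have h1 : Real.log q ≤ Real.log X := Real.log_le_log hq0' hqX
    rw [div_le_iff₀ (by linarith)]
    nlinarith
  -- the cover
  have hcov : A ⊆ (A.filter fun a : ℕ => (a : ℝ) ≤ √x) ∪ ((A.filter fun a : ℕ => (D a : ℝ) ≤ √x) ∪
      ((A.filter fun a : ℕ => ∀ p : ℕ, p.Prime → p ∣ a → (p : ℝ) ≤ y) ∪
      ((A.filter fun a : ℕ => ∀ p : ℕ, p.Prime → p ∣ D a → (p : ℝ) ≤ y) ∪
      ((R.biUnion fun i => A.filter (F i)) ∪ (R.biUnion fun i => A.filter (G i)))))) := by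
    intro a ha
    rw [mem_union, mem_union, mem_union, mem_union, mem_union, mem_filter, mem_filter, mem_filter,
      mem_filter, mem_biUnion, mem_biUnion]
    by_cases k1 : (a : ℝ) ≤ √x
    · exact Or.inl ⟨ha, k1⟩
    by_cases k2 : (D a : ℝ) ≤ √x
    · exact Or.inr (Or.inl ⟨ha, k2⟩)
    by_cases k3 : ∀ p : ℕ, p.Prime → p ∣ a → (p : ℝ) ≤ y
    · exact Or.inr (Or.inr (Or.inl ⟨ha, k3⟩))
    by_cases k4 : ∀ p : ℕ, p.Prime → p ∣ D a → (p : ℝ) ≤ y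
    · exact Or.inr (Or.inr (Or.inr (Or.inl ⟨ha, k4⟩)))
    have hCa := (hA a ha).2
    obtain ⟨p, p1, p2, p3, p4⟩ := max_prime a hCa.sa.ne_zero y k3
    obtain ⟨q, q1, q2, q3, q4⟩ := max_prime (D a) hCa.sb.ne_zero y k4
    obtain ⟨i1, i2, i3⟩ := scale y n2 q q4
    obtain ⟨j1, j2, j3⟩ := scale y n2 p p4
    have hi := hRi q q1.pos ((Nat.cast_le.2 (Nat.le_of_dvd hCa.sb.ne_zero.bot_lt q2)).trans
      (hbX a ha))
    have hj := hRi p p1.pos ((Nat.cast_le.2 (Nat.le_of_dvd hCa.sa.ne_zero.bot_lt p2)).trans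
      ((hA a ha).1.trans hxX))
    obtain ⟨i, hi'⟩ : ∃ i : ℕ, i = ⌊100 * Real.log q / Real.log y⌋₊ := ⟨_, rfl⟩
    obtain ⟨j, hj'⟩ : ∃ j : ℕ, j = ⌊100 * Real.log p / Real.log y⌋₊ := ⟨_, rfl⟩
    rw [← hi'] at hi i1 i2 i3
    rw [← hj'] at hj j1 j2 j3
    refine Or.inr (Or.inr (Or.inr (Or.inr ?_)))
    rcases hT a (D a) p q i j x y hCa (hA a ha).1 hL1 n2 (by rw [← hL]; exact n3)
      (n4.trans_lt (not_le.1 k1)) (n4.trans_lt (not_le.1 k2)) p1 p2 p3 q1 q2 q3 i1 j1 i3 j3 with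
      ⟨d, d1, d2, d3⟩ | ⟨d, d1, d2, d3⟩
    · refine Or.inl ⟨i, hi, mem_filter.2 ⟨ha, ?_⟩⟩
      rw [hF]
      exact ⟨i1, q, d, q1, q2, q3, i2, i3, d1, d2, d3⟩
    · refine Or.inr ⟨j, hj, mem_filter.2 ⟨ha, ?_⟩⟩
      rw [hG]
      exact ⟨j1, p, d, p1, p2, p3, j2, j3, d1, d2, d3⟩
  have hb1 : ((R.biUnion fun i => A.filter (F i)).card : ℝ) ≤ (200 * L + 1) * (3 * X / y) := by
    calc ((R.biUnion fun i => A.filter (F i)).card : ℝ) ≤ ∑ i ∈ R, ((A.filter (F i)).card : ℝ) := by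
          exact_mod_cast card_biUnion_le
      _ ≤ ∑ i ∈ R, (3 * X / y) := sum_le_sum fun i _ => e5 i
      _ = R.card * (3 * X / y) := by rw [sum_const, nsmul_eq_mul]
      _ ≤ _ := mul_le_mul_of_nonneg_right hRc hXy
  have hb2 : ((R.biUnion fun i => A.filter (G i)).card : ℝ) ≤ (200 * L + 1) * (3 * X / y) := by
    calc ((R.biUnion fun i => A.filter (G i)).card : ℝ) ≤ ∑ i ∈ R, ((A.filter (G i)).card : ℝ) := by
          exact_mod_cast card_biUnion_le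
      _ ≤ ∑ i ∈ R, (3 * X / y) := sum_le_sum fun i _ => e6 i
      _ = R.card * (3 * X / y) := by rw [sum_const, nsmul_eq_mul]
      _ ≤ _ := mul_le_mul_of_nonneg_right hRc hXy
  have hcard := (card_le_card hcov).trans ((card_union_le _ _).trans (add_le_add le_rfl
    ((card_union_le _ _).trans (add_le_add le_rfl ((card_union_le _ _).trans (add_le_add le_rfl
    ((card_union_le _ _).trans (add_le_add le_rfl (card_union_le _ _)))))))))
  have hcard' : (A.card : ℝ) ≤ _ := Nat.cast_le.2 hcard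
  push_cast at hcard'
  have hfin : √x + (√x + (x / y + (X / y + ((200 * L + 1) * (3 * X / y) +
      (200 * L + 1) * (3 * X / y))))) ≤ 2 * √x + x * (2000 * L ^ 3) / y := by
    have h1 : x / y + (X / y + ((200 * L + 1) * (3 * X / y) + (200 * L + 1) * (3 * X / y))) =
        x / y * (1 + L + 2 * (200 * L + 1) * (3 * L)) := by
      rw [hX]
      ring
    have h2 : x * (2000 * L ^ 3) / y = x / y * (2000 * L ^ 3) := by ring
    have h3 : 1 + L + 2 * (200 * L + 1) * (3 * L) ≤ 2000 * L ^ 3 := by nlinarith [sq_nonneg L]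
    have h4 : 0 ≤ x / y := by positivity
    have h5 := mul_le_mul_of_nonneg_left h3 h4
    rw [h2]
    linarith
  linarith

end Pool.Agent.Helper47.BL
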