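import Pool.Agent.Helper47.BL.Defs

set_option autoImplicit false

namespace Pool.Agent.Helper47.BL

open Finset

theorem ee_nonneg (i : ℕ) : 0 ≤ ee i := by
  unfold ee
  split_ifs <;> positivity

theorem tt_le (i : ℕ) : tt i ≤ 51 / 50 := by
  unfold tt
  linarith [ee_nonneg i]

theorem core1 (a b u w : ℝ) (ha : 1 ≤ a) (ha4 : a ≤ 5) (hua : u * a = 1)
    (hwb : w * b = 1) (hw : 0 < w) (h : b + w < a + 103 / 100) : 308 / 100 < a + 2 * u + w := by
  have h1 : 1 < w * (a + 103 / 100) := by
    have : w * b < w * (a + 103 / 100) := mul_lt_mul_of_pos_left (by linarith) hw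
    linarith
  have hu : 0 < u := by
    by_contra hc
    nlinarith
  have h2 : 0 < a * (a + 103 / 100) := by positivity
  have h3 : 308 / 100 * (a * (a + 103 / 100)) < (a + 2 * u + w) * (a * (a + 103 / 100)) := by
    have e : (a + 2 * u + w) * (a * (a + 103 / 100)) =
        a ^ 2 * (a + 103 / 100) + 2 * (u * a) * (a + 103 / 100) + a * (w * (a + 103 / 100)) := by
      ring
    rw [e, hua]
    have h4 : a * 1 < a * (w * (a + 103 / 100)) := mul_lt_mul_of_pos_left h1 (by linarith)
    have h5 : 0 ≤ (a - 7 / 5) ^ 2 * (a + 3 / 4) := by positivity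
    nlinarith
  exact lt_of_mul_lt_mul_right h3 h2.le

/-- the window inequality -/
theorem NI : ST_NI := by
  intro i j hi hj h1 h2
  have hi' : (100 : ℝ) ≤ i := by exact_mod_cast hi
  have hj' : (100 : ℝ) ≤ j := by exact_mod_cast hj
  have ti := tt_le i
  have tj := tt_le j
  by_cases hi4 : i ≤ 400
  · have hi4' : (i : ℝ) ≤ 400 := by exact_mod_cast hi4
    have pi : (0 : ℝ) < (i : ℝ) + 1 := by linarith
    have ei : tt i = 1 - 100 / ((i : ℝ) + 1) + 1 / 50 := by
      unfold tt ee
      rw [if_pos hi4]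
    obtain ⟨u, hu⟩ : ∃ u : ℝ, u = 100 / ((i : ℝ) + 1) := ⟨_, rfl⟩
    have hua : u * (((i : ℝ) + 1) / 100) = 1 := by rw [hu]; field_simp
    rw [← hu] at ei
    by_cases hj4 : j ≤ 400
    · have pj : (0 : ℝ) < (j : ℝ) + 1 := by linarith
      have ej : tt j = 1 - 100 / ((j : ℝ) + 1) + 1 / 50 := by
        unfold tt ee
        rw [if_pos hj4]
      obtain ⟨w, hw⟩ : ∃ w : ℝ, w = 100 / ((j : ℝ) + 1) := ⟨_, rfl⟩
      have hwb : w * (((j : ℝ) + 1) / 100) = 1 := by rw [hw]; field_simp
      rw [← hw] at ej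
      have hw0 : 0 < w := by rw [hw]; positivity
      have h := core1 (((i : ℝ) + 1) / 100) (((j : ℝ) + 1) / 100) u w (by linarith) (by linarith)
        hua hwb hw0 (by linarith)
      linarith
    · have hj5 : (401 : ℝ) ≤ j := by exact_mod_cast (by omega : 401 ≤ j)
      have ha : 298 / 100 < ((i : ℝ) + 1) / 100 := by linarith
      have hu0 : 1 / 5 < u := by
        rw [hu, lt_div_iff₀ pi]
        linarith
      linarith
  · have hi5 : (401 : ℝ) ≤ i := by exact_mod_cast (by omega : 401 ≤ i)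
    linarith

end Pool.Agent.Helper47.BL
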