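import Pool.Agent.Helper50.BL.Stmts
import Pool.Agent.Helper50.BL.Base

/-! Module NUMF of the BL crew (MP_e8ee11_co): parameters. -/

namespace Pool.Agent.Helper50.BL

open Finset
open scoped Classical

theorem numf_eta {δ : ℝ} (h0 : 0 < δ) :
    ∃ η : ℝ, 0 < η ∧ η ≤ 1 / 4 ∧ 1 / 2 + η ≤ (1 / 2 - η) ^ (1 - δ) := by
  have hc : ContinuousAt (fun η : ℝ => (1 / 2 - η) ^ (1 - δ) - (1 / 2 + η)) 0 := by
    refine ContinuousAt.sub (ContinuousAt.rpow_const (by fun_prop) (Or.inl (by norm_num)))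
      (by fun_prop)
  have hv : 0 < (fun η : ℝ => (1 / 2 - η) ^ (1 - δ) - (1 / 2 + η)) 0 := by
    simp only [sub_zero, add_zero]
    have h2 : (1 / 2 : ℝ) ^ (1 : ℝ) < (1 / 2 : ℝ) ^ (1 - δ) :=
      Real.rpow_lt_rpow_of_exponent_gt (by norm_num) (by norm_num) (by linarith)
    rw [Real.rpow_one] at h2
    linarith
  have he := hc.eventually (lt_mem_nhds hv)
  have he2 : ∀ᶠ η : ℝ in nhds 0, η < 1 / 4 := gt_mem_nhds (by norm_num)
  obtain ⟨ε, hε, hb⟩ := Metric.eventually_nhds_iff.1 (he.and he2)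
  refine ⟨ε / 2, by linarith, ?_, ?_⟩
  · have := (hb (y := ε / 2) (by
      rw [Real.dist_eq, sub_zero, abs_of_pos (by linarith)]; linarith)).2
    exact this.le
  · have := (hb (y := ε / 2) (by
      rw [Real.dist_eq, sub_zero, abs_of_pos (by linarith)]; linarith)).1
    linarith

theorem numf_rho {t : ℕ} (ht : 1 ≤ t) : ∃ ρ : ℕ, 64 * t ≤ 2 ^ ρ ∧ 2 ^ ρ ≤ 128 * t := by
  refine ⟨Nat.log 2 (64 * t) + 1, ?_, ?_⟩
  · exact (Nat.lt_pow_succ_log_self (by norm_num) _).le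
  · have := Nat.pow_log_le_self 2 (x := 64 * t) (by omega)
    rw [pow_succ]
    omega

theorem numf_lin {a L : ℝ} (ha : 0 ≤ a) (hL : 1 / 2 ≤ L) : a ≤ 2 * a * L := by
  have := mul_le_mul_of_nonneg_left hL ha
  linarith

theorem numf_c0 {c t D : ℝ} (ht : 1 ≤ t) (hD : 1 ≤ D) :
    c * t * D + 2 ≤ (c + 2) * t * D := by
  have h1 : 1 * 1 ≤ t * D := mul_le_mul ht hD (by norm_num) (by linarith)
  linarith

theorem numf_n1 {c t D Z L : ℝ} (hc : 0 ≤ c) (ht : 1 ≤ t) (hD : 1 ≤ D) (hL : 1 / 2 ≤ L)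
    (hlt : Real.log t ≤ L) (hZ : 1 ≤ Z) (hldd : Real.log D ≤ 2 * L + Real.log Z) :
    8 * Real.log (c * t * D + 2) ≤ 8 * (2 * Real.log (c + 2) + 3 + 2 * Real.log Z) * L := by
  have h4 := Real.log_le_log (by positivity) (numf_c0 (c := c) ht hD)
  rw [Real.log_mul (by positivity) (by positivity),
    Real.log_mul (by positivity) (by positivity)] at h4
  have h5 := numf_lin (Real.log_nonneg (by linarith : 1 ≤ c + 2)) hL
  have h6 := numf_lin (Real.log_nonneg hZ) hL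
  linarith

theorem numf_s {t L : ℝ} (ht : 1 ≤ t) (hL : 1 / 2 ≤ L) : 1 / 2 ≤ Real.sqrt (t * L) := by
  refine Real.le_sqrt_of_sq_le ?_
  nlinarith

theorem numf_Ls {t L : ℝ} (ht : 1 ≤ t) (hL : 1 / 2 ≤ L) :
    L ≤ 8 * (Real.sqrt (t * L) * L ^ 3) := by
  have h1 : 1 / 4 ≤ L ^ 2 := by nlinarith
  have h2 : 1 / 2 * (1 / 4) ≤ Real.sqrt (t * L) * L ^ 2 :=
    mul_le_mul (numf_s ht hL) h1 (by norm_num) (Real.sqrt_nonneg _)
  have h3 := mul_le_mul_of_nonneg_right h2 (by linarith : (0 : ℝ) ≤ L)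
  have h4 : Real.sqrt (t * L) * L ^ 2 * L = Real.sqrt (t * L) * L ^ 3 := by ring
  linarith

theorem numf_tau {P t L N C : ℝ} (hP : 0 ≤ P) (ht : 1 ≤ t) (hL : 1 / 2 ≤ L) (hN : 0 ≤ N)
    (hC : 0 ≤ C) (hNC : N ≤ C * L) :
    64 * P * (5 * 10 ^ 7 * P ^ 2 * Real.sqrt (t * N) * N ^ 2) * N
      ≤ 64 * (5 * 10 ^ 7) * P ^ 3 * Real.sqrt C * C ^ 3 * (Real.sqrt (t * L) * L ^ 3) := by
  have hsq : Real.sqrt (t * N) ≤ Real.sqrt C * Real.sqrt (t * L) := by
    rw [← Real.sqrt_mul hC]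
    refine Real.sqrt_le_sqrt ?_
    have := mul_le_mul_of_nonneg_left hNC (by linarith : (0 : ℝ) ≤ t)
    linarith
  have h1 : N ^ 3 ≤ (C * L) ^ 3 := pow_le_pow_left₀ hN hNC 3
  have h2 : Real.sqrt (t * N) * N ^ 3 ≤ (Real.sqrt C * Real.sqrt (t * L)) * (C * L) ^ 3 :=
    mul_le_mul hsq h1 (by positivity) (by positivity)
  have h4 := mul_le_mul_of_nonneg_left h2 (by positivity : (0 : ℝ) ≤ 64 * (5 * 10 ^ 7) * P ^ 3)
  have h3 : 64 * P * (5 * 10 ^ 7 * P ^ 2 * Real.sqrt (t * N) * N ^ 2) * N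
      = 64 * (5 * 10 ^ 7) * P ^ 3 * (Real.sqrt (t * N) * N ^ 3) := by ring
  rw [h3]
  refine h4.trans (le_of_eq ?_)
  ring

theorem numf_z {Z C L : ℝ} (hL : 1 / 2 ≤ L) (hZ : Z ≤ C * L) :
    2 * Z + 32 ≤ (2 * C + 64) * L := by
  linarith

set_option maxHeartbeats 4000000 in
theorem st_NUMF : ST_NUMF := by
  intro δ hδ hδ1
  obtain ⟨η, hη, hη4, hηr⟩ := numf_eta hδ
  set γ : ℝ := min (1 / 10 ^ 6) (η ^ 2) with hγdef
  clear_value γ
  have hη2 : 0 < η ^ 2 := by positivity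
  have hγ : 0 < γ := by
    rw [hγdef]
    exact lt_min (by norm_num) hη2
  have hγ1 : γ ≤ 1 / 10 ^ 6 := by
    rw [hγdef]
    exact min_le_left _ _
  have hγ2 : γ ≤ η ^ 2 := by
    rw [hγdef]
    exact min_le_right _ _
  refine ⟨γ, η, ⌈1 / δ⌉₊, hγ, hγ1, hγ2, hη, hη4, hηr, ?_, ?_, ?_⟩
  · exact Nat.one_le_ceil_iff.2 (by positivity)
  · have h1 : 1 / δ ≤ (⌈1 / δ⌉₊ : ℝ) := Nat.le_ceil _
    have h2 := mul_le_mul_of_nonneg_left h1 hδ.le
    rwa [mul_one_div_cancel hδ.ne'] at h2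
  intro C0
  set p := ⌈1 / δ⌉₊ with hp
  clear_value p
  -- constants
  set lg : ℝ := Real.log (16 / γ) with hlg
  clear_value lg
  have hlg0 : 0 ≤ lg := by
    rw [hlg]
    refine Real.log_nonneg ?_
    rw [le_div_iff₀ hγ]
    linarith [hγ1, (by norm_num : (1 : ℝ) / 10 ^ 6 ≤ 1)]
  set CZ : ℝ := (2 * lg + 2) / η ^ 2 + 6 with hCZ
  clear_value CZ
  have hCZ1 : 1 ≤ CZ := by
    have : 0 ≤ (2 * lg + 2) / η ^ 2 := by positivity
    linarith
  set CN : ℝ := 8 * (2 * Real.log (C0 + 2) + 3 + 2 * Real.log CZ) with hCN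
  clear_value CN
  have hlC0 : 0 ≤ Real.log ((C0 : ℝ) + 2) := Real.log_nonneg (by
    have : (0 : ℝ) ≤ C0 := Nat.cast_nonneg _
    linarith)
  have hlCZ : 0 ≤ Real.log CZ := Real.log_nonneg hCZ1
  have hCN0 : 0 ≤ CN := by
    rw [hCN]
    positivity
  refine ⟨8 * (2 * CZ + 64) + 64 * (5 * 10 ^ 7) * (p : ℝ) ^ 3 * Real.sqrt CN * CN ^ 3, ?_⟩
  intro t d ht hd
  have ht' : (1 : ℝ) ≤ t := by exact_mod_cast ht
  have hd' : (1 : ℝ) ≤ d := by exact_mod_cast hd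
  set L : ℝ := Real.log (2 * t * d) with hL
  clear_value L
  have htd : (1 : ℝ) ≤ t * d := by nlinarith
  have h2td : (0 : ℝ) < 2 * t * d := by positivity
  have hLhalf : 1 / 2 ≤ L := by
    have h1 : Real.log 2 ≤ L := by
      rw [hL]
      exact Real.log_le_log (by norm_num) (by linarith)
    have h2 := Real.log_two_gt_d9
    linarith
  have hL0 : 0 ≤ L := by linarith
  have hlt : Real.log t ≤ L := by
    rw [hL]
    exact Real.log_le_log (by linarith) (by nlinarith)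
  have hld : Real.log d ≤ L := by
    rw [hL]
    exact Real.log_le_log (by linarith) (by nlinarith)
  have hlt0 : 0 ≤ Real.log t := Real.log_nonneg ht'
  -- Z0
  set A : ℝ := 16 * (t : ℝ) ^ 2 / γ with hA
  clear_value A
  have hA0 : 0 < A := by
    rw [hA]
    positivity
  have hAlog : Real.log A = lg + 2 * Real.log t := by
    have : A = (16 / γ) * (t : ℝ) ^ 2 := by rw [hA]; ring
    rw [this, Real.log_mul (by positivity) (by positivity), Real.log_pow, ← hlg]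
    push_cast
    ring
  have hAlog0 : 0 ≤ Real.log A := by
    rw [hAlog]
    positivity
  set Z0 : ℕ := ⌈Real.log A / η ^ 2⌉₊ + 2 with hZ0
  clear_value Z0
  have hZlow : Real.log A ≤ η ^ 2 * Z0 := by
    have h1 : Real.log A / η ^ 2 ≤ (⌈Real.log A / η ^ 2⌉₊ : ℝ) := Nat.le_ceil _
    have h2 : Real.log A / η ^ 2 ≤ (Z0 : ℝ) := by
      rw [hZ0]
      push_cast
      linarith
    rw [div_le_iff₀ hη2] at h2
    linarith
  have hZup : (Z0 : ℝ) ≤ CZ * L := by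
    have h1 : (⌈Real.log A / η ^ 2⌉₊ : ℝ) < Real.log A / η ^ 2 + 1 :=
      Nat.ceil_lt_add_one (by positivity)
    have h2 : (Z0 : ℝ) = (⌈Real.log A / η ^ 2⌉₊ : ℝ) + 2 := by
      rw [hZ0]
      push_cast
      ring
    have h3 : Real.log A ≤ (2 * lg + 2) * L := by
      rw [hAlog]
      nlinarith
    have h4 : Real.log A / η ^ 2 ≤ (2 * lg + 2) / η ^ 2 * L := by
      rw [div_mul_eq_mul_div]
      exact div_le_div_of_nonneg_right h3 hη2.le
    have h5 : CZ * L = (2 * lg + 2) / η ^ 2 * L + 6 * L := by rw [hCZ]; ring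
    rw [h2, h5]
    linarith
  have hZ1 : (1 : ℝ) ≤ Z0 := by
    have : 1 ≤ Z0 := by omega
    exact_mod_cast this
  set dd : ℕ := max d Z0 with hdd
  clear_value dd
  have hdd2 : d ≤ dd := by
    rw [hdd]
    exact le_max_left _ _
  have hdd3 : Z0 ≤ dd := by
    rw [hdd]
    exact le_max_right _ _
  have hdd1 : 1 ≤ dd := hd.trans hdd2
  have hdd1' : (1 : ℝ) ≤ dd := by exact_mod_cast hdd1
  have hddle : (dd : ℝ) ≤ d * Z0 := by
    have h1 : dd ≤ d * Z0 := by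
      rw [hdd]
      refine max_le ?_ ?_
      · exact Nat.le_mul_of_pos_right d (by omega)
      · exact Nat.le_mul_of_pos_left Z0 hd
    exact_mod_cast h1
  have hldd : Real.log dd ≤ 2 * L + Real.log CZ := by
    have h1 : (dd : ℝ) ≤ d * (CZ * (2 * t * d)) := by
      have h2 : L ≤ 2 * t * d := by
        rw [hL]
        have := Real.log_le_sub_one_of_pos h2td
        linarith
      have h3 : (Z0 : ℝ) ≤ CZ * (2 * t * d) :=
        hZup.trans (mul_le_mul_of_nonneg_left h2 (by linarith))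
      exact hddle.trans (mul_le_mul_of_nonneg_left h3 (by linarith))
    have h4 := Real.log_le_log (by linarith) h1
    rw [Real.log_mul (by positivity) (by positivity), Real.log_mul (by positivity) (by positivity),
      ← hL] at h4
    linarith
  set n1 : ℕ := (C0 * t * dd + 2) ^ 8 with hn1
  clear_value n1
  have hln1 : Real.log n1 ≤ CN * L := by
    have h1 : ((n1 : ℕ) : ℝ) = ((C0 : ℝ) * t * dd + 2) ^ 8 := by
      rw [hn1]
      push_cast
      ring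
    have h2 := numf_n1 (c := (C0 : ℝ)) (Nat.cast_nonneg _) ht' hdd1' hLhalf hlt hCZ1 hldd
    rw [h1, Real.log_pow, hCN]
    push_cast
    exact h2
  have hln0 : 0 ≤ Real.log n1 := by
    refine Real.log_nonneg ?_
    have : 1 ≤ n1 := by
      rw [hn1]
      exact Nat.one_le_pow _ _ (by omega)
    exact_mod_cast this
  obtain ⟨ρ, hρ1, hρ2⟩ := numf_rho ht
  refine ⟨dd, Z0, n1, ρ, hdd2, hdd3, by omega, hdd1, hρ1, hρ2, ?_, ?_, ?_, ?_⟩
  · rw [hn1]
    exact Nat.pow_le_pow_left (by omega) 8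
  · rw [hn1]
    refine Nat.pow_le_pow_left ?_ 8
    have : C0 * t ≤ C0 * t * dd := Nat.le_mul_of_pos_right _ hdd1
    omega
  · have h1 : Real.exp (-(η ^ 2 * Z0)) ≤ Real.exp (-Real.log A) :=
      Real.exp_le_exp.2 (by linarith)
    rw [Real.exp_neg (Real.log A), Real.exp_log hA0] at h1
    have h2 : 2 * ((t : ℝ) + (t : ℝ) ^ 2) ≤ 4 * (t : ℝ) ^ 2 := by nlinarith
    calc 2 * ((t : ℝ) + (t : ℝ) ^ 2) * Real.exp (-(η ^ 2 * Z0))
        ≤ 4 * (t : ℝ) ^ 2 * A⁻¹ := mul_le_mul h2 h1 (Real.exp_pos _).le (by positivity)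
      _ = γ / 4 := by
        rw [hA]
        field_simp
        norm_num
  · have htau := numf_tau (P := (p : ℝ)) (Nat.cast_nonneg _) ht' hLhalf hln0 hCN0 hln1
    have hz := numf_z hLhalf hZup
    have hz2 := mul_le_mul_of_nonneg_left (numf_Ls ht' hLhalf)
      (by linarith : (0 : ℝ) ≤ 2 * CZ + 64)
    have hfin : (8 * (2 * CZ + 64) + 64 * (5 * 10 ^ 7) * (p : ℝ) ^ 3 * Real.sqrt CN * CN ^ 3)
        * Real.sqrt (t * L) * L ^ 3
        = (2 * CZ + 64) * (8 * (Real.sqrt (t * L) * L ^ 3))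
          + 64 * (5 * 10 ^ 7) * (p : ℝ) ^ 3 * Real.sqrt CN * CN ^ 3
          * (Real.sqrt (t * L) * L ^ 3) := by ring
    rw [hfin]
    unfold tau0
    linarith

end Pool.Agent.Helper50.BL
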