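import Pool.Agent.Helper47.BL.NI

set_option autoImplicit false

namespace Pool.Agent.Helper47.BL

open Finset Pool.Agent.Helper44.BB

theorem tt_pos (i : ℕ) (hi : 100 ≤ i) : 0 < tt i := by
  have hi' : (100 : ℝ) ≤ i := by exact_mod_cast hi
  unfold tt ee
  split_ifs
  · have : 100 / ((i : ℝ) + 1) ≤ 1 := by
      rw [div_le_one (by linarith)]
      linarith
    linarith
  · norm_num

theorem tt_three (i : ℕ) (hi : 100 ≤ i) : tt i + tt i ≤ (i : ℝ) / 100 - tt i := by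
  have hi' : (100 : ℝ) ≤ i := by exact_mod_cast hi
  unfold tt ee
  split_ifs with h
  · have pi : (0 : ℝ) < (i : ℝ) + 1 := by linarith
    obtain ⟨a, ha⟩ : ∃ a : ℝ, a = ((i : ℝ) + 1) / 100 := ⟨_, rfl⟩
    have ha1 : 1 ≤ a := by rw [ha]; linarith
    have e1 : 100 / ((i : ℝ) + 1) = 1 / a := by rw [ha]; field_simp
    have e2 : (i : ℝ) = 100 * a - 1 := by rw [ha]; ring
    rw [e1, e2]
    have h3 : (307 / 100 - a) ≤ 3 * (1 / a) := by
      rw [mul_one_div, le_div_iff₀ (by linarith)]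
      nlinarith [sq_nonneg (a - 3 / 2)]
    linarith
  · have hi5 : (401 : ℝ) ≤ i := by exact_mod_cast (by omega : 401 ≤ i)
    linarith

/-- the smooth part is small if there is no divisor in the window -/
theorem small_part (hD : ST_DIV) (a p i : ℕ) (y : ℝ) (ha : Squarefree a) (hy : 1 < y)
    (ha2 : y ^ (2 : ℕ) < a) (hpmax : ∀ r : ℕ, r.Prime → r ∣ a → r ≤ p) (hi : 100 ≤ i)
    (hA : ∀ d : ℕ, d ∣ a → y ^ tt i ≤ d → y ^ ((i : ℝ) / 100 - tt i) < d) :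
    (sp (y ^ ((i : ℝ) / 100 - tt i)) a : ℝ) < y ^ tt i ∧ y ^ ((i : ℝ) / 100 - tt i) < p := by
  have hy0 : 0 < y := by linarith
  have h1 : (sp (y ^ ((i : ℝ) / 100 - tt i)) a : ℝ) < y ^ tt i := by
    by_contra hc
    have hc := not_lt.1 hc
    obtain ⟨w, hw1, hw2, hw3⟩ := hD (sp (y ^ ((i : ℝ) / 100 - tt i)) a)
      (y ^ ((i : ℝ) / 100 - tt i)) (y ^ tt i) (sp_pos _ _).ne'
      (Real.one_le_rpow hy.le (tt_pos i hi).le) (by
        rw [sq, ← Real.rpow_add hy0]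
        exact Real.rpow_le_rpow_of_exponent_le hy.le (tt_three i hi)) hc (by
        intro r hr hrd
        have : r ∈ (sp (y ^ ((i : ℝ) / 100 - tt i)) a).primeFactors :=
          Nat.mem_primeFactors.2 ⟨hr, hrd, (sp_pos _ _).ne'⟩
        rw [sp_primeFactors] at this
        exact (mem_filter.1 this).2)
    exact absurd hw3 (not_le.2 (hA w (hw1.trans (sp_dvd _ _)) hw2))
  refine ⟨h1, ?_⟩
  have h2 : ∃ r : ℕ, r.Prime ∧ r ∣ a ∧ y ^ ((i : ℝ) / 100 - tt i) < r := by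
    by_contra hc
    push Not at hc
    have h3 := sp_self (t := y ^ ((i : ℝ) / 100 - tt i)) ha hc
    rw [h3] at h1
    have h4 : y ^ tt i ≤ y ^ (2 : ℕ) := by
      rw [← Real.rpow_natCast]
      exact Real.rpow_le_rpow_of_exponent_le hy.le (by have := tt_le i; push_cast; linarith)
    linarith
  obtain ⟨r, hr, hra, hr2⟩ := h2
  exact hr2.trans_le (Nat.cast_le.2 (hpmax r hr hra))

theorem STR (hE : ST_ERR) (hD : ST_DIV) : ST_STR := by
  intro a b p q i j x y hC hax hlog hy h8 ha2 hb2 hp hpa hpmax hq hqb hqmax hi hj hqi hpj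
  by_contra hcon
  push Not at hcon
  obtain ⟨hA, hB⟩ := hcon
  have hy0 : 0 < y := by linarith
  obtain ⟨a1, a2⟩ := small_part hD a p i y hC.sa hy ha2 hpmax hi hA
  obtain ⟨b1, b2⟩ := small_part hD b q j y hC.sb hy hb2 hqmax hj hB
  have n1 : (i : ℝ) / 100 - tt i < ((j : ℝ) + 1) / 100 :=
    (Real.rpow_lt_rpow_left_iff hy).1 (a2.trans hpj)
  have n2 : (j : ℝ) / 100 - tt j < ((i : ℝ) + 1) / 100 :=
    (Real.rpow_lt_rpow_left_iff hy).1 (b2.trans hqi)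
  have m1 := NI i j hi hj n1 n2
  have m2 := NI j i hj hi n2 n1
  obtain ⟨t, ht⟩ : ∃ t : ℝ, t = min (y ^ ((i : ℝ) / 100 - tt i)) (y ^ ((j : ℝ) / 100 - tt j)) :=
    ⟨_, rfl⟩
  have t1 : t ≤ y ^ ((i : ℝ) / 100 - tt i) := by rw [ht]; exact min_le_left _ _
  have t2 : t ≤ y ^ ((j : ℝ) / 100 - tt j) := by rw [ht]; exact min_le_right _ _
  have t3 : y ^ (tt i + tt j + 1 / 100) < t := by
    rw [ht, lt_min_iff]
    refine ⟨Real.rpow_lt_rpow_of_exponent_lt hy m1, Real.rpow_lt_rpow_of_exponent_lt hy ?_⟩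
    linarith
  have t0 : 1 ≤ t := (Real.one_le_rpow hy.le (by
    have := tt_pos i hi
    have := tt_pos j hj
    linarith)).trans t3.le
  obtain ⟨e1, _, e3⟩ := hE a b x t hC hax hlog t0
  have e3 := e3 ⟨p, hp, hpa, t1.trans_lt a2⟩
  have s1 : (sp t a : ℝ) < y ^ tt i := by
    refine lt_of_le_of_lt (Nat.cast_le.2 (Nat.le_of_dvd (sp_pos _ _) (sp_mono t1 a))) a1
  have s2 : (sp t b : ℝ) < y ^ tt j := by
    refine lt_of_le_of_lt (Nat.cast_le.2 (Nat.le_of_dvd (sp_pos _ _) (sp_mono t2 b))) b1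
  have p1 : (0 : ℝ) < sp t a := Nat.cast_pos.2 (sp_pos _ _)
  have p2 : (0 : ℝ) < sp t b := Nat.cast_pos.2 (sp_pos _ _)
  have t0' : 0 < t := by linarith
  have k1 : 1 / ((sp t a : ℝ) * sp t b) ≤ 8 * Real.log x ^ 2 / t := by linarith
  rw [div_le_div_iff₀ (mul_pos p1 p2) t0', one_mul] at k1
  have k2 : (sp t a : ℝ) * sp t b < y ^ tt i * y ^ tt j :=
    mul_lt_mul'' s1 s2 p1.le p2.le
  have k3 : 8 * Real.log x ^ 2 * ((sp t a : ℝ) * sp t b) ≤
      y ^ (1 / 100 : ℝ) * (y ^ tt i * y ^ tt j) :=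
    mul_le_mul h8 k2.le (mul_pos p1 p2).le (Real.rpow_nonneg hy0.le _)
  have k4 : y ^ (1 / 100 : ℝ) * (y ^ tt i * y ^ tt j) = y ^ (tt i + tt j + 1 / 100) := by
    rw [← Real.rpow_add hy0, ← Real.rpow_add hy0]
    congr 1
    ring
  rw [k4] at k3
  linarith

end Pool.Agent.Helper47.BL
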